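import Pool.Agent.Lib_MP_23a060_co.Heredity
import Pool.Agent.Lib_MP_23a060_co.FinConv

/-! Every connected ordered subgraph of an `n`-good ordered graph is `n`-good. -/

namespace Pool.Agent.Results.MP_23a060_co.Heredity

open OG23

theorem result : ∀ n : ℕ, 0 < n → ∀ (k : ℕ) (G : SimpleGraph (Fin k)), NGood n G →
    ∀ (h : ℕ) (H : SimpleGraph (Fin h)), H.Connected → Contains G H → NGood n H := by
  intro n hn k G hG h H hH hGH
  obtain ⟨f, hf⟩ := hGH
  apply nGood_of_arrow hn H hH f
  obtain ⟨hne, hconn⟩ := connS_img H hH f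
  by_cases h1 : n = 1
  · subst h1
    exact arrow_one hne
  by_cases h2 : n = 2
  · subst h2
    exact arrow_two hne
  have hOG : OG (toNat G) k := og_toNat G hG.1
  have hnb : ¬ Bad n (toNat G) k := not_bad_of_nGood G hn hG
  have hk := hOG.pos
  apply arrow_window (by omega) hOG hnb (k - 1) 1 k le_rfl le_rfl hk le_rfl
    (fun i j hij hi => by
      have := hOG.rng _ _ hij
      omega)
    (fun i j hij hi => by
      have := hOG.rng _ _ (hOG.symm _ _ hij)
      omega) _ _ ?_ hne hconn ?_ ?_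
  · intro i hi
    obtain ⟨u, -, rfl⟩ := Finset.mem_image.1 hi
    have := (f u).isLt
    omega
  · rintro i j ⟨u, v, rfl, rfl, huv⟩
    exact ⟨f u, f v, rfl, rfl, hf u v huv⟩
  · rintro i j ⟨u, v, rfl, rfl, huv⟩
    exact ⟨v, u, rfl, rfl, huv.symm⟩

end Pool.Agent.Results.MP_23a060_co.Heredity
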